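import Pool.Agent.W2helper38.GA.Lat
import Pool.Agent.W2helper25.PP.Main

/-!
Groups of automorphisms of `F[x, y]` which preserve a lattice.
-/

set_option autoImplicit false

namespace Pool.Agent.W2helper38.GA

open Pool.Agent.Y110.FJ (ClosedE)
open Pool.Agent.N509.TX (AcylF)
open Pool.Agent.W2helper25.PP

variable {C : ∀ (G : Type) [Group G], Prop} {F : Type} [Field F]

/-- `(a, b, c) ↦ a x + b y + c` -/
noncomputable def linMap (F : Type) [Field F] : (F × F × F) →ₗ[F] P2 F where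
  toFun v := lin v.1 v.2.1 v.2.2
  map_add' u v := by
    simp only [lin, Prod.fst_add, Prod.snd_add, map_add]
    ring
  map_smul' r v := by
    simp only [lin, Prod.smul_fst, Prod.smul_snd, smul_eq_mul, map_mul, RingHom.id_apply,
      MvPolynomial.smul_eq_C_mul]
    ring

theorem linMap_apply (v : F × F × F) : linMap F v = lin v.1 v.2.1 v.2.2 := rfl

theorem linMap_injective : Function.Injective (linMap F) := by
  rintro ⟨a, b, c⟩ ⟨a', b', c'⟩ h
  rw [linMap_apply, linMap_apply] at h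
  obtain ⟨e1, e2, e3⟩ := coeff_lin a b c
  obtain ⟨f1, f2, f3⟩ := coeff_lin a' b' c'
  simp only at h
  rw [h] at e1 e2 e3
  rw [e1] at f1
  rw [e2] at f2
  rw [e3] at f3
  rw [f1, f2, f3]

/-- the image of the space of the polynomials of degree at most one -/
noncomputable def VV (g : GA2 F) : Submodule F (P2 F) :=
  LinearMap.range (g.toLinearMap.comp (linMap F))

theorem mem_VV {g : GA2 F} {p : P2 F} : p ∈ VV g ↔ ∃ a b c : F, g (lin a b c) = p := by
  constructor
  · rintro ⟨⟨a, b, c⟩, rfl⟩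
    exact ⟨a, b, c, rfl⟩
  · rintro ⟨a, b, c, rfl⟩
    exact ⟨⟨a, b, c⟩, rfl⟩

theorem finrank_VV (g : GA2 F) : Module.finrank F (VV g) = 3 := by
  have h1 : Function.Injective (g.toLinearMap.comp (linMap F)) :=
    g.injective.comp linMap_injective
  rw [VV, LinearMap.finrank_range_of_inj h1]
  simp

theorem VV_mul {g φ : GA2 F} (h : φ ∈ (Aff F).map (MulAut.conj g).toMonoidHom) {p : P2 F}
    (hp : p ∈ VV g) : φ p ∈ VV g := by
  obtain ⟨α, hα, rfl⟩ := h
  rw [mem_VV] at hp ⊢
  obtain ⟨a, b, c, rfl⟩ := hp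
  obtain ⟨⟨u, v, w, h1⟩, u', v', w', h2⟩ := hα
  refine ⟨a * u + b * u', a * v + b * v', a * w + b * w' + c, ?_⟩
  have h3 : ((MulAut.conj g).toMonoidHom α : GA2 F) (g (lin a b c)) = g (α (lin a b c)) := by
    show (g * α * g⁻¹) (g (lin a b c)) = _
    rw [AlgEquiv.mul_apply, AlgEquiv.mul_apply]
    congr 2
    exact g.symm_apply_apply _
  rw [h3, map_lin α, h1, h2]
  congr 1
  simp only [lin, map_add, map_mul]
  ring

/-- the action on this space -/
noncomputable def act (g : GA2 F) (H : Subgroup (GA2 F))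
    (hH : H ≤ (Aff F).map (MulAut.conj g).toMonoidHom) : H →* (VV g →ₗ[F] VV g) where
  toFun φ := (φ : GA2 F).toLinearMap.restrict fun _ hp => VV_mul (hH φ.2) hp
  map_one' := rfl
  map_mul' _ _ := rfl

theorem act_val (g : GA2 F) (H : Subgroup (GA2 F))
    (hH : H ≤ (Aff F).map (MulAut.conj g).toMonoidHom) (φ : H) (p : VV g) :
    ((act g H hH φ p : VV g) : P2 F) = (φ : GA2 F) (p : P2 F) := rfl

theorem act_injective (g : GA2 F) (H : Subgroup (GA2 F))
    (hH : H ≤ (Aff F).map (MulAut.conj g).toMonoidHom) : Function.Injective (act g H hH) := by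
  intro φ ψ h
  have key : ∀ a b c : F, (φ : GA2 F) (g (lin a b c)) = (ψ : GA2 F) (g (lin a b c)) := by
    intro a b c
    have h1 := congrArg (fun t : VV g →ₗ[F] VV g =>
      ((t ⟨g (lin a b c), mem_VV.2 ⟨a, b, c, rfl⟩⟩ : VV g) : P2 F)) h
    exact h1
  have h2 : (φ : GA2 F) * g = ψ * g := by
    apply ext2
    · rw [vx_eq_lin]; exact key _ _ _
    · rw [vy_eq_lin]; exact key _ _ _
  exact Subtype.ext (mul_right_cancel h2)

variable {O : Type} [CommRing O] [Algebra O F]

/-- **stabilizers** -/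
theorem conj_case (hC : ClosedE C) (hS : ∀ (G : Type) [Group G], Group.IsSolvable G → C G)
    (hL : LatC C O F) (Λ : Submodule O (P2 F))
    (h1 : ∀ V : Submodule F (P2 F), FiniteDimensional F V → (Λ ⊓ V.restrictScalars O).FG)
    (h2 : ∀ p : P2 F, ∃ t : O, algebraMap O F t ≠ 0 ∧ t • p ∈ Λ)
    (g : GA2 F) (H : Subgroup (GA2 F)) (hH : H ≤ (Aff F).map (MulAut.conj g).toMonoidHom)
    (hΛ : ∀ φ ∈ H, ∀ p ∈ Λ, φ p ∈ Λ) : C H := by
  have hfin : FiniteDimensional F (VV g) := Module.finite_of_finrank_pos (by rw [finrank_VV]; omega)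
  obtain ⟨j, hj⟩ : ∃ j : VV g →ₗ[O] P2 F, ∀ x, j x = (x : P2 F) :=
    ⟨(VV g).subtype.restrictScalars O, fun x => rfl⟩
  have hjinj : Function.Injective j := by
    intro x y hxy
    rw [hj, hj] at hxy
    exact Subtype.ext hxy
  have hmem : ∀ x : VV g, x ∈ Λ.comap j ↔ (x : P2 F) ∈ Λ := by
    intro x
    rw [Submodule.mem_comap, hj]
  have he : (1 : P2 F) ∈ VV g := by
    rw [mem_VV]
    refine ⟨0, 0, 1, ?_⟩
    have h3 : (lin 0 0 1 : P2 F) = 1 := by simp [lin]
    rw [h3, map_one]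
  refine lat3 hC hS hL (V := VV g) (finrank_VV g) (Λ.comap j) ?_ ?_ (act g H hH)
    (act_injective g H hH) ?_ ⟨1, he⟩ ?_ ?_
  · apply Submodule.fg_of_fg_map_injective j hjinj
    have h3 : (Λ.comap j).map j = Λ ⊓ (VV g).restrictScalars O := by
      apply Submodule.ext
      intro p
      rw [Submodule.mem_map, Submodule.mem_inf, Submodule.restrictScalars_mem]
      constructor
      · rintro ⟨x, hx, rfl⟩
        rw [hmem] at hx
        rw [hj]
        exact ⟨hx, x.2⟩
      · rintro ⟨hp, hp'⟩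
        exact ⟨⟨p, hp'⟩, (hmem _).2 hp, hj _⟩
    rw [h3]
    exact h1 _ hfin
  · rw [eq_top_iff]
    intro x _
    obtain ⟨t, ht, htx⟩ := h2 x
    have h3 : t • x ∈ Λ.comap j := by
      rw [hmem]
      exact htx
    have h4 : x = (algebraMap O F t)⁻¹ • (t • x) := by
      rw [← algebraMap_smul F t x, smul_smul, inv_mul_cancel₀ ht, one_smul]
    rw [h4]
    exact Submodule.smul_mem _ _ (Submodule.subset_span h3)
  · intro φ x hx
    rw [hmem] at hx ⊢
    rw [act_val]
    exact hΛ φ φ.2 _ hx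
  · intro h
    exact one_ne_zero (congrArg Subtype.val h)
  · intro φ
    apply Subtype.ext
    rw [act_val]
    exact map_one _

/-- **Arithmetic groups of plane automorphisms.** -/
theorem arith (hC : ClosedE C) (hA : AcylF C)
    (hS : ∀ (G : Type) [Group G], Group.IsSolvable G → C G) [CharZero F]
    (hL : LatC C O F) (Λ : Submodule O (P2 F))
    (h1 : ∀ V : Submodule F (P2 F), FiniteDimensional F V → (Λ ⊓ V.restrictScalars O).FG)
    (h2 : ∀ p : P2 F, ∃ t : O, algebraMap O F t ≠ 0 ∧ t • p ∈ Λ)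
    (G : Subgroup (GA2 F)) (hΛ : ∀ φ ∈ G, ∀ p ∈ Λ, φ p ∈ Λ) : C G :=
  main1 hC hA hS F G fun g => conj_case hC hS hL Λ h1 h2 g _ inf_le_right
    fun φ hφ => hΛ φ hφ.1

end Pool.Agent.W2helper38.GA
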