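import Pool.Agent.Y529.FJ.Ext
import Pool.Agent.R941.FJ.Hyper

/-!
Extensions with solvable kernels.
-/

set_option autoImplicit false

namespace Pool.Agent.W2helper38.GA

open Pool.Agent.Y110.FJ

variable {C : ∀ (G : Type) [Group G], Prop}

theorem solvable_of_ker {G Q : Type} [Group G] [Group Q] (f : G →* Q)
    (h1 : Group.IsSolvable f.ker) (h2 : ∀ x y : G, f x * f y = f y * f x) :
    Group.IsSolvable G := by
  have h3 : Group.IsSolvable f.range := by
    apply Group.isSolvable_of_comm
    rintro ⟨_, x, rfl⟩ ⟨_, y, rfl⟩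
    exact Subtype.ext (h2 x y)
  refine Group.isSolvable_of_ker_le_range f.ker.subtype f.rangeRestrict ?_
  rw [Subgroup.range_subtype, MonoidHom.ker_rangeRestrict]

/-- homomorphisms with solvable kernel to groups in the class -/
theorem C_of_solvable_ker (hC : ClosedE C)
    (hS : ∀ (G : Type) [Group G], Group.IsSolvable G → C G) {G Q : Type} [Group G] [Group Q]
    (f : G →* Q) (hker : Group.IsSolvable f.ker) (hQ : C Q) : C G := by
  refine Pool.Agent.Y529.FJ.t_ext C hC G f.ker (hS _ hker) ?_ fun g _ => hS _ ?_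
  · refine hC.base.of_injective (G ⧸ f.ker) Q (QuotientGroup.kerLift f) ?_ hQ
    exact QuotientGroup.kerLift_injective f
  · obtain ⟨q, hq⟩ : ∃ q : ↥(f.ker ⊔ Subgroup.zpowers g) →* Q,
      q = f.comp (f.ker ⊔ Subgroup.zpowers g).subtype := ⟨_, rfl⟩
    have hmem : ∀ x : ↥(f.ker ⊔ Subgroup.zpowers g), q x ∈ Subgroup.zpowers (f g) := by
      rintro ⟨x, hx⟩
      rw [hq]
      show f x ∈ Subgroup.zpowers (f g)
      obtain ⟨y, hy, z, hz, rfl⟩ := Pool.Agent.R941.FJ.mem_sup_normal.1 hx
      obtain ⟨n, rfl⟩ := Subgroup.mem_zpowers_iff.1 hz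
      rw [map_mul, (MonoidHom.mem_ker).1 hy, one_mul, map_zpow]
      exact Subgroup.zpow_mem_zpowers _ _
    apply solvable_of_ker q
    · have := hker
      obtain ⟨e, he⟩ : ∃ e : q.ker →* f.ker, ∀ x, ((e x : f.ker) : G) = ((x : q.ker) : ↥(f.ker ⊔ Subgroup.zpowers g)) := by
        refine ⟨MonoidHom.mk' (fun x => ⟨((x : q.ker) : ↥(f.ker ⊔ Subgroup.zpowers g)), ?_⟩) ?_,
          fun x => rfl⟩
        · have h1 := MonoidHom.mem_ker.1 x.2
          have h2 : q (x : q.ker) = f ((x : q.ker) : ↥(f.ker ⊔ Subgroup.zpowers g)) :=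
            congrFun (congrArg _ hq) _
          rw [h2] at h1
          exact MonoidHom.mem_ker.2 h1
        · intro x y
          rfl
      exact Group.isSolvable_of_isSolvable_injective (f := e) (by
        intro x y h
        apply Subtype.ext
        apply Subtype.ext
        rw [← he, ← he, h])
    · intro x y
      obtain ⟨m, hm⟩ := Subgroup.mem_zpowers_iff.1 (hmem x)
      obtain ⟨n, hn⟩ := Subgroup.mem_zpowers_iff.1 (hmem y)
      rw [← hm, ← hn, ← zpow_add, ← zpow_add, add_comm]

end Pool.Agent.W2helper38.GA
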