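import Pool.Agent.W2helper38.GA.Ker

/-!
Groups which preserve lattices of rank two, and of rank three with a fixed vector.
-/

set_option autoImplicit false

namespace Pool.Agent.W2helper38.GA

open Pool.Agent.Y110.FJ (ClosedE)

/-- The groups which act faithfully and linearly on a vector space of dimension two over `F` and
preserve a finitely generated spanning `O`-submodule are in the class `C`. -/
def LatC (C : ∀ (G : Type) [Group G], Prop) (O F : Type) [CommRing O] [Field F] [Algebra O F] :
    Prop :=
  ∀ (V : Type) [AddCommGroup V] [Module F V] [Module O V] [IsScalarTower O F V],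
    Module.finrank F V = 2 → ∀ L : Submodule O V, L.FG → Submodule.span F (L : Set V) = ⊤ →
      ∀ (G : Type) [Group G] (ρ : G →* (V →ₗ[F] V)), Function.Injective ρ →
        (∀ g, ∀ x ∈ L, ρ g x ∈ L) → C G

variable {C : ∀ (G : Type) [Group G], Prop}

section

variable {F V : Type} [Field F] [AddCommGroup V] [Module F V]

/-- the action on the quotient by an invariant subspace -/
def quoHom {G : Type} [Group G] (ρ : G →* (V →ₗ[F] V)) (A : Submodule F V)
    (hA : ∀ g, ∀ x ∈ A, ρ g x ∈ A) : G →* (V ⧸ A →ₗ[F] V ⧸ A) where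
  toFun g := A.mapQ A (ρ g) (hA g)
  map_one' := by
    apply Submodule.linearMap_qext
    ext y
    show Submodule.Quotient.mk (ρ 1 y) = Submodule.Quotient.mk y
    rw [map_one]
    rfl
  map_mul' x y := by
    apply Submodule.linearMap_qext
    ext z
    show Submodule.Quotient.mk (ρ (x * y) z) = Submodule.Quotient.mk (ρ x (ρ y z))
    rw [map_mul]
    rfl

theorem quoHom_mk {G : Type} [Group G] (ρ : G →* (V →ₗ[F] V)) (A : Submodule F V)
    (hA : ∀ g, ∀ x ∈ A, ρ g x ∈ A) (g : G) (y : V) :
    quoHom ρ A hA g (Submodule.Quotient.mk y) = Submodule.Quotient.mk (ρ g y) := rfl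

end

/-- **lattices of rank three with a fixed vector** -/
theorem lat3 (hC : ClosedE C) (hS : ∀ (G : Type) [Group G], Group.IsSolvable G → C G)
    {O F : Type} [CommRing O] [Field F] [Algebra O F] (hL : LatC C O F)
    {V : Type} [AddCommGroup V] [Module F V] [Module O V] [IsScalarTower O F V]
    (h3 : Module.finrank F V = 3) (L : Submodule O V) (hfg : L.FG)
    (hsp : Submodule.span F (L : Set V) = ⊤) {G : Type} [Group G] (ρ : G →* (V →ₗ[F] V))
    (hinj : Function.Injective ρ) (hρ : ∀ g, ∀ x ∈ L, ρ g x ∈ L)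
    (e : V) (he : e ≠ 0) (hfix : ∀ g, ρ g e = e) : C G := by
  have hfin : Module.Finite F V := Module.finite_of_finrank_pos (by omega)
  have hA : ∀ g, ∀ x ∈ Submodule.span F {e}, ρ g x ∈ Submodule.span F {e} := by
    intro g x hx
    obtain ⟨c, rfl⟩ := Submodule.mem_span_singleton.1 hx
    rw [map_smul, hfix]
    exact hx
  obtain ⟨q, hq⟩ : ∃ q : G →* (V ⧸ Submodule.span F {e} →ₗ[F] V ⧸ Submodule.span F {e}),
      ∀ g y, q g (Submodule.Quotient.mk y) = Submodule.Quotient.mk (ρ g y) :=
    ⟨quoHom ρ (Submodule.span F {e}) hA, fun g y => quoHom_mk _ _ _ _ _⟩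
  have hdim : Module.finrank F (V ⧸ Submodule.span F {e}) = 2 := by
    have h1 := Submodule.finrank_quotient_add_finrank (Submodule.span F {e})
    rw [finrank_span_singleton he] at h1
    omega
  -- the image of the lattice
  obtain ⟨π, hπ⟩ : ∃ π : V →ₗ[O] V ⧸ Submodule.span F {e}, ∀ x, π x = Submodule.Quotient.mk x :=
    ⟨(Submodule.mkQ (Submodule.span F {e})).restrictScalars O, fun x => rfl⟩
  have hsp' : Submodule.span F ((L.map π : Submodule O _) : Set (V ⧸ Submodule.span F {e})) = ⊤ := by
    have h1 : ((L.map π : Submodule O _) : Set (V ⧸ Submodule.span F {e})) =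
        (Submodule.mkQ (Submodule.span F {e})) '' (L : Set V) := by
      apply Set.ext
      intro y
      constructor
      · rintro ⟨x, hx, rfl⟩
        exact ⟨x, hx, (hπ x).symm⟩
      · rintro ⟨x, hx, rfl⟩
        exact ⟨x, hx, hπ x⟩
    rw [h1, ← Submodule.map_span, hsp, Submodule.map_top, Submodule.range_mkQ]
  refine C_of_solvable_ker hC hS q.toHomUnits.rangeRestrict ?_ ?_
  · apply Group.isSolvable_of_comm
    have key : ∀ x : q.toHomUnits.rangeRestrict.ker, ∀ v : V,
        ∃ c : F, ρ (x : G) v = v + c • e := by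
      intro x v
      have h1 : q.toHomUnits (x : G) = 1 := congrArg Subtype.val (MonoidHom.mem_ker.1 x.2)
      have h2 : q (x : G) = 1 := congrArg Units.val h1
      have h3 : q (x : G) (Submodule.Quotient.mk v) = Submodule.Quotient.mk v := by
        rw [h2]; rfl
      rw [hq] at h3
      obtain ⟨c, hc⟩ := Submodule.mem_span_singleton.1 ((Submodule.Quotient.eq _).1 h3)
      exact ⟨c, by rw [hc]; abel⟩
    intro x y
    apply Subtype.ext
    apply hinj
    rw [Subgroup.coe_mul, Subgroup.coe_mul, map_mul, map_mul]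
    apply LinearMap.ext
    intro v
    obtain ⟨a, ha⟩ := key x v
    obtain ⟨b, hb⟩ := key y v
    show ρ x (ρ y v) = ρ y (ρ x v)
    rw [ha, hb, map_add, map_add, map_smul, map_smul, hfix, hfix, ha, hb]
    abel
  · refine hL _ hdim (L.map π) (hfg.map π) hsp' q.toHomUnits.range
      ((Units.coeHom _).comp q.toHomUnits.range.subtype) ?_ ?_
    · intro x y hxy
      apply Subtype.ext
      exact Units.ext hxy
    · rintro ⟨_, g, rfl⟩ _ ⟨x, hx, rfl⟩
      refine ⟨ρ g x, hρ g x hx, ?_⟩
      rw [hπ, hπ]
      show _ = q g (Submodule.Quotient.mk x)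
      rw [hq]

end Pool.Agent.W2helper38.GA
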