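import Pool.Agent.W2helper38.GA.Conj
import Pool.Agent.W2helper34.GT.Fin

/-!
The automorphism groups of the polynomial rings `O[x, y]`.
-/

set_option autoImplicit false

namespace Pool.Agent.W2helper38.GA

open Pool.Agent.Y110.FJ (ClosedE)
open Pool.Agent.N509.TX (AcylF)
open Pool.Agent.W2helper25.PP

section lattice

variable (O F : Type) [CommRing O] [Field F] [Algebra O F]

/-- the extension of the coefficients -/
noncomputable def incl : MvPolynomial (Fin 2) O →ₐ[O] MvPolynomial (Fin 2) F :=
  MvPolynomial.mapAlgHom (Algebra.ofId O F)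

theorem incl_injective [IsDomain O] [IsFractionRing O F] : Function.Injective (incl O F) :=
  MvPolynomial.map_injective (algebraMap O F) (IsFractionRing.injective O F)

/-- the lattice of the polynomials with coefficients in `O` -/
noncomputable def polyLat : Submodule O (MvPolynomial (Fin 2) F) :=
  LinearMap.range (incl O F).toLinearMap

theorem mem_polyLat {p : MvPolynomial (Fin 2) F} : p ∈ polyLat O F ↔ ∃ q, incl O F q = p :=
  Iff.rfl

theorem polyLat_fg [IsNoetherianRing O] [IsDomain O] [IsFractionRing O F]
    (V : Submodule F (P2 F)) (hV : FiniteDimensional F V) :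
    (polyLat O F ⊓ V.restrictScalars O).FG := by
  -- the degrees of the elements of `V` are bounded
  obtain ⟨S, hS⟩ : V.FG := (Submodule.fg_top V).1 hV.fg_top
  obtain ⟨d, hd⟩ : ∃ d : ℕ, ∀ p ∈ V, p.totalDegree ≤ d := by
    refine ⟨S.sup MvPolynomial.totalDegree, fun p hp => ?_⟩
    rw [← MvPolynomial.mem_restrictTotalDegree]
    have h1 : V ≤ MvPolynomial.restrictTotalDegree (Fin 2) F (S.sup MvPolynomial.totalDegree) := by
      rw [← hS, Submodule.span_le]
      intro q hq
      rw [SetLike.mem_coe, MvPolynomial.mem_restrictTotalDegree]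
      exact Finset.le_sup (f := MvPolynomial.totalDegree) hq
    exact h1 hp
  have h1 : polyLat O F ⊓ V.restrictScalars O ≤
      (MvPolynomial.restrictTotalDegree (Fin 2) O d).map (incl O F).toLinearMap := by
    rintro p ⟨⟨q, rfl⟩, hp⟩
    refine ⟨q, ?_, rfl⟩
    rw [SetLike.mem_coe, MvPolynomial.mem_restrictTotalDegree]
    have h2 := hd _ hp
    have h3 : (incl O F q).totalDegree = q.totalDegree := by
      have h4 : (incl O F q).support = q.support :=
        MvPolynomial.support_map_of_injective q (IsFractionRing.injective O F)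
      rw [MvPolynomial.totalDegree, MvPolynomial.totalDegree, h4]
    have h5 : (incl O F q).totalDegree ≤ d := h2
    rwa [h3] at h5
  have h2 : ((MvPolynomial.restrictTotalDegree (Fin 2) O d).map (incl O F).toLinearMap).FG := by
    refine Submodule.FG.map _ ?_
    have : Module.Finite O (MvPolynomial.restrictTotalDegree (Fin 2) O d) := inferInstance
    exact (Submodule.fg_top _).1 this.fg_top
  have h3 : IsNoetherian O
      ((MvPolynomial.restrictTotalDegree (Fin 2) O d).map (incl O F).toLinearMap) :=
    isNoetherian_of_fg_of_noetherian _ h2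
  exact (isNoetherian_submodule.1 h3) _ h1

theorem polyLat_span [IsDomain O] [IsFractionRing O F] (p : P2 F) :
    ∃ t : O, algebraMap O F t ≠ 0 ∧ t • p ∈ polyLat O F := by
  classical
  obtain ⟨b, hb⟩ := IsLocalization.exist_integer_multiples_of_finset (nonZeroDivisors O)
    (p.support.image fun m => p.coeff m)
  refine ⟨b, ?_, ?_⟩
  · exact (map_ne_zero_iff _ (IsFractionRing.injective O F)).2 (nonZeroDivisors.ne_zero b.2)
  · have h1 : ∀ m, ∃ a : O, algebraMap O F a = (b : O) • p.coeff m := by
      intro m
      by_cases hm : m ∈ p.support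
      · exact hb _ (Finset.mem_image_of_mem _ hm)
      · rw [MvPolynomial.notMem_support_iff.1 hm]
        exact ⟨0, by simp⟩
    choose a ha using h1
    rw [MvPolynomial.as_sum p, Finset.smul_sum]
    refine Submodule.sum_mem _ fun m _ => ?_
    refine ⟨MvPolynomial.monomial m (a m), ?_⟩
    have h2 : incl O F (MvPolynomial.monomial m (a m)) =
        MvPolynomial.monomial m (algebraMap O F (a m)) := MvPolynomial.map_monomial _ _ _
    show incl O F (MvPolynomial.monomial m (a m)) = _
    rw [h2, ha, MvPolynomial.smul_monomial]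

end lattice

section base

variable (O F : Type) [CommRing O] [Field F] [Algebra O F]

/-- the extension of the scalars for endomorphisms -/
noncomputable def bc : (MvPolynomial (Fin 2) O →ₐ[O] MvPolynomial (Fin 2) O) →*
    (MvPolynomial (Fin 2) F →ₐ[F] MvPolynomial (Fin 2) F) where
  toFun φ := MvPolynomial.aeval fun i => incl O F (φ (MvPolynomial.X i))
  map_one' := by
    apply MvPolynomial.algHom_ext
    intro i
    rw [MvPolynomial.aeval_X]
    exact MvPolynomial.map_X _ _
  map_mul' φ ψ := by
    have key : ∀ (χ : MvPolynomial (Fin 2) O →ₐ[O] MvPolynomial (Fin 2) O) (p : MvPolynomial (Fin 2) O),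
        MvPolynomial.aeval (fun i => incl O F (χ (MvPolynomial.X i))) (incl O F p) =
          incl O F (χ p) := by
      intro χ p
      have h1 : (((MvPolynomial.aeval fun i => incl O F (χ (MvPolynomial.X i))) :
          MvPolynomial (Fin 2) F →ₐ[F] MvPolynomial (Fin 2) F).restrictScalars O).comp
            (incl O F) = (incl O F).comp χ := by
        apply MvPolynomial.algHom_ext
        intro i
        show MvPolynomial.aeval (fun i => incl O F (χ (MvPolynomial.X i)))
          (incl O F (MvPolynomial.X i)) = incl O F (χ (MvPolynomial.X i))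
        have h2 : incl O F (MvPolynomial.X i) = MvPolynomial.X i := MvPolynomial.map_X _ _
        rw [h2, MvPolynomial.aeval_X]
      exact congrArg (fun t : MvPolynomial (Fin 2) O →ₐ[O] MvPolynomial (Fin 2) F => t p) h1
    apply MvPolynomial.algHom_ext
    intro i
    rw [MvPolynomial.aeval_X]
    show incl O F (φ (ψ (MvPolynomial.X i))) =
      MvPolynomial.aeval (fun i => incl O F (φ (MvPolynomial.X i)))
        (MvPolynomial.aeval (fun i => incl O F (ψ (MvPolynomial.X i))) (MvPolynomial.X i))
    rw [MvPolynomial.aeval_X, key]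

theorem bc_incl (φ : MvPolynomial (Fin 2) O →ₐ[O] MvPolynomial (Fin 2) O)
    (p : MvPolynomial (Fin 2) O) : bc O F φ (incl O F p) = incl O F (φ p) := by
  have h1 : ((bc O F φ).restrictScalars O).comp (incl O F) = (incl O F).comp φ := by
    apply MvPolynomial.algHom_ext
    intro i
    show MvPolynomial.aeval (fun i => incl O F (φ (MvPolynomial.X i)))
      (incl O F (MvPolynomial.X i)) = incl O F (φ (MvPolynomial.X i))
    have h2 : incl O F (MvPolynomial.X i) = MvPolynomial.X i := MvPolynomial.map_X _ _
    rw [h2, MvPolynomial.aeval_X]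
  exact congrArg (fun t : MvPolynomial (Fin 2) O →ₐ[O] MvPolynomial (Fin 2) F => t p) h1

/-- the extension of the scalars for automorphisms -/
noncomputable def bca : (MvPolynomial (Fin 2) O ≃ₐ[O] MvPolynomial (Fin 2) O) →* GA2 F :=
  (AlgEquiv.algHomUnitsEquiv F (MvPolynomial (Fin 2) F)).toMonoidHom.comp
    ((Units.map (bc O F)).comp
      (AlgEquiv.algHomUnitsEquiv O (MvPolynomial (Fin 2) O)).symm.toMonoidHom)

theorem bca_incl (φ : MvPolynomial (Fin 2) O ≃ₐ[O] MvPolynomial (Fin 2) O)
    (p : MvPolynomial (Fin 2) O) : bca O F φ (incl O F p) = incl O F (φ p) :=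
  bc_incl O F φ p

theorem bca_injective [IsDomain O] [IsFractionRing O F] : Function.Injective (bca O F) := by
  intro φ ψ h
  apply AlgEquiv.ext
  intro p
  apply incl_injective O F
  rw [← bca_incl, ← bca_incl, h]

end base

variable {C : ∀ (G : Type) [Group G], Prop}

/-- **the automorphism groups of the polynomial rings** -/
theorem aut_poly (hC : ClosedE C) (hA : AcylF C)
    (hS : ∀ (G : Type) [Group G], Group.IsSolvable G → C G) (O F : Type) [CommRing O] [IsDomain O]
    [IsNoetherianRing O] [Field F] [Algebra O F] [IsFractionRing O F] [CharZero F]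
    (hL : LatC C O F) : C (MvPolynomial (Fin 2) O ≃ₐ[O] MvPolynomial (Fin 2) O) := by
  have h1 : C (bca O F).range := by
    refine arith hC hA hS hL (polyLat O F) (polyLat_fg O F) (polyLat_span O F) _ ?_
    rintro _ ⟨φ, rfl⟩ _ ⟨p, rfl⟩
    exact ⟨φ p, (bca_incl O F φ p).symm⟩
  exact Pool.Agent.R941.FJ.C_equiv hC.base (MonoidHom.ofInjective (bca_injective O F)) h1

/-- rings with a degree function -/
theorem latC_deg (hC : ClosedE C) (hS : ∀ (G : Type) [Group G], Group.IsSolvable G → C G)
    (K : Type) [Field K] (hK : ∀ n : ℕ, C (GL (Fin n) K))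
    (O : Type) [CommRing O] [IsDomain O] [Algebra K O] [Algebra.FiniteType K O]
    (d : Pool.Agent.W2helper34.GT.DegO K O) (F : Type) [Field F] [Algebra O F]
    [IsFractionRing O F] : LatC C O F := by
  let _ : Algebra K F := ((algebraMap O F).comp (algebraMap K O)).toAlgebra
  have htow : IsScalarTower K O F := IsScalarTower.of_algebraMap_eq fun x => rfl
  intro V _ _ _ _ hdim L hLfg hsp G _ ρ hρ hρL
  have hfin : Module.Finite F V := Module.finite_of_finrank_pos (by omega)
  have hOn : IsNoetherianRing O := Algebra.FiniteType.isNoetherianRing K O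
  have hsp' : ∀ v : V, ∃ t : O, t ≠ 0 ∧ t • v ∈ L := by
    intro v
    have hv : v ∈ Submodule.span F (L : Set V) := by rw [hsp]; trivial
    induction hv using Submodule.span_induction with
    | mem x hx => exact ⟨1, one_ne_zero, by rw [one_smul]; exact hx⟩
    | zero => exact ⟨1, one_ne_zero, by rw [one_smul]; exact L.zero_mem⟩
    | add x y _ _ hx hy =>
      obtain ⟨s, hs, hs'⟩ := hx
      obtain ⟨t, ht, ht'⟩ := hy
      refine ⟨s * t, mul_ne_zero hs ht, ?_⟩
      rw [smul_add]
      refine L.add_mem ?_ ?_
      · rw [mul_comm, mul_smul]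
        exact L.smul_mem t hs'
      · rw [mul_smul]
        exact L.smul_mem s ht'
    | smul r x _ hx =>
      obtain ⟨s, hs, hs'⟩ := hx
      obtain ⟨a, b, hb, hr⟩ := Pool.Agent.W2helper34.GT.exists_frac (O := O) r
      refine ⟨b * s, mul_ne_zero hb hs, ?_⟩
      have e : (b * s) • (r • x) = a • (s • x) := by
        rw [← algebraMap_smul F (b * s), ← algebraMap_smul F a, ← algebraMap_smul F s, smul_smul,
          smul_smul, map_mul, hr]
        congr 1
        have := Pool.Agent.W2helper34.GT.am_ne (F := F) hb
        field_simp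
      rw [e]
      exact L.smul_mem a hs'
  obtain ⟨N, _, hCN, hN⟩ := Pool.Agent.W2helper34.GT.factor_two d hC hK hS L hLfg hsp' ρ hρL ⊥ ⊤
    bot_le (fun g x hx => by
      rw [Submodule.mem_bot] at hx ⊢
      rw [hx, map_zero]) (fun g x _ => trivial) (by rw [finrank_top, hdim, finrank_bot])
  refine hC.base.of_injective _ _ (QuotientGroup.mk' N) ?_ hCN
  rw [injective_iff_map_eq_one]
  intro g hg
  have h1 : g ∈ N := (QuotientGroup.eq_one_iff g).1 hg
  apply hρ
  rw [map_one]
  apply LinearMap.ext
  intro x
  exact sub_eq_zero.1 ((Submodule.mem_bot F).1 (hN g h1 x trivial))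

end Pool.Agent.W2helper38.GA
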